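import Pool.Agent.X275.GB.K48
import Pool.Agent.X31.S4

/-!
# Goldbach representations in primorial intervals, near the values of polynomials at integers with missing digits

`f` is an arbitrary real polynomial of degree `d ≥ 2` (only the size of the leading coefficient is restricted), `C` is the
set of the integers with `M` digits in base `b` whose digit at `b ^ j` is in `𝒟 j`, where the sets `𝒟 j` of allowed digits
are arbitrary with at least TWO elements (for instance: the integers with the decimal digits `0` and `1` only; such sets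
can be as thin as `N ^ ε`). For almost all elements `n` of ARBITRARY dense subsets of `C`, ALL even numbers `m > 0` with
`|m - f(n)| ≤ log ^ D N` have the property `Holds`. The starting files treat (for this
or for related problems) integral quadratic polynomials and `m = f(n)` for the full sets `C`.

Method: the windows formula for almost all members of the families of small additive energy
(`Pool.Agent.TH935.GF.fam_win`, starting files), and the bound for the real additive energy of the values of polynomials at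
integers with missing digits (`Pool.Agent.X31.K1` - `K10`, `S2`, in this run).

`Holds ε m` (module `Pool.Agent.X275.GB.K48`): the assertion of the problem for the even number `m` (if `m` belongs to the
`n + 1`-st primorial interval, then `m = p + q` with a prime `p` in the `n`-th primorial interval and a prime `q` in the
`n`-th or the `n + 1`-st one), and the number of these representations is `𝔖(m) #(n) / log ^ 2 m` up to a relative error
of at most `ε`. Here `𝔖(m) = sing m` is the singular series.
Definitions from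
`Pool.Agent.H560R3.GB` (starting files): `C₂`: the twin prime constant `∏_{p > 2} (1 - 1 / (p - 1) ^ 2)`; `sing m`: the singular
series `2 C₂ ∏_{p ∣ m, p > 2} (p - 1) / (p - 2)`.
-/

set_option autoImplicit false

namespace Pool.Agent.Results.MP_484fb8_nt.MissingDigits

open Finset Pool.Agent.H560R3.GB Pool.Agent.X275.GB.K48
open scoped Polynomial

/-- the integers `0 ≤ n < b ^ M` whose digit at `b ^ j` in base `b` is in `𝒟 j`, for all `j < M` -/
def Digits (b : ℕ) (𝒟 : ℕ → Finset ℕ) (M : ℕ) : Finset ℕ :=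
  (range (b ^ M)).filter (fun n => ∀ j < M, n / b ^ j % b ∈ 𝒟 j)

/-- `S` is a subset with at least `#(Digits b 𝒟 M) / log ^ D N` elements of the set `Digits b 𝒟 M`, where all sets `𝒟 j`
of allowed digits have at least two elements; `f` is a real polynomial of degree at most `d`, the coefficient of `x ^ d`
is at most `log ^ D N` and at least `N / (b ^ (d M) log ^ D N)` in absolute value, and `|f| ≤ N` on `S`. -/
def Fam (b d D N M : ℕ) (𝒟 : ℕ → Finset ℕ) (f : ℝ[X]) (S : Finset ℕ) : Prop :=
  (∀ j, 𝒟 j ⊆ range b ∧ 2 ≤ (𝒟 j).card) ∧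
  f.natDegree ≤ d ∧ |f.coeff d| ≤ Real.log N ^ D ∧ (N : ℝ) / Real.log N ^ D ≤ |f.coeff d| * (b : ℝ) ^ (d * M) ∧
  S ⊆ Digits b 𝒟 M ∧ ((Digits b 𝒟 M).card : ℝ) / Real.log N ^ D ≤ S.card ∧ ∀ n ∈ S, |f.eval (n : ℝ)| ≤ N

lemma dat_of {b d D N M : ℕ} {𝒟 : ℕ → Finset ℕ} {f : ℝ[X]} {S : Finset ℕ} (h : Fam b d D N M 𝒟 f S) :
    Pool.Agent.X31.CT.Dat b d D N M 𝒟 f S :=
  ⟨h.1, h.2.1, h.2.2.1, h.2.2.2.1, h.2.2.2.2.1, h.2.2.2.2.2.1, h.2.2.2.2.2.2⟩

open Classical in
/-- Let `b ≥ 2`, `d ≥ 2`. For all sufficiently large `N`, for ALL `M`, all sets `𝒟 j` of allowed digits, all real polynomials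
`f` and all sets `S` with `Fam b d D N M 𝒟 f S`: all but at most `|S| / log ^ U N` elements `n` of `S` are such that ALL even
numbers `m > 0` with `|m - f(n)| ≤ log ^ D N` satisfy `Holds ε m`. -/
theorem result (b d : ℕ) (hb : 2 ≤ b) (hd : 2 ≤ d) (D U : ℕ) (ε : ℝ) (hε : 0 < ε) :
    ∃ N₀ : ℕ, ∀ N : ℕ, N₀ ≤ N → ∀ (M : ℕ) (𝒟 : ℕ → Finset ℕ) (f : ℝ[X]) (S : Finset ℕ), Fam b d D N M 𝒟 f S →
      ((S.filter (fun n : ℕ => ¬ ∀ m : ℕ, 0 < m → Even m →
        |(m : ℝ) - f.eval (n : ℝ)| ≤ Real.log N ^ D → Holds ε m)).card : ℝ) ≤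
        S.card / Real.log N ^ U := by
  obtain ⟨N₀, h0⟩ := (Pool.Agent.X31.Sch_dg hb hd).even D U _ (famP ε hε)
  refine ⟨N₀, fun N hN M 𝒟 f S hdat => ?_⟩
  obtain ⟨E, hE1, hE2⟩ := h0 N hN S (fun n => f.eval (n : ℝ)) ⟨M, 𝒟, f, dat_of hdat, fun n => rfl⟩
  refine le_trans ?_ hE1
  apply Nat.cast_le.2
  apply card_le_card
  intro n hn
  rw [mem_filter] at hn
  by_contra hcon
  exact hn.2 (fun m hm0 hm2 hm3 => hE2 n hn.1 hcon m hm0 hm2 hm3)

end Pool.Agent.Results.MP_484fb8_nt.MissingDigits
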